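import Pool.Agent.Y856.Sq.Main

/-!
# The bound of Elliott and Halberstam for almost all residues of the form `c + square`

The bound of Elliott and Halberstam with absolute values holds at every level `θ < 1` on average over the residues
`a ≤ x` which are of the form `c + i ^ 2`, uniformly for all integers `c` with `|c| ≤ x`.
-/

set_option autoImplicit false

namespace Pool.Agent.Results.MP_a78e8f_nt.AlmostAllSquares

open Finset

/-- `π(x)`: the number of primes `p ≤ x`. -/
noncomputable def primePi (x : ℕ) : ℕ := ((Icc 1 x).filter (fun p : ℕ => p.Prime)).card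

/-- `π(x; q, a)`: the number of primes `p ≤ x` with `p ≡ a (mod q)`. -/
noncomputable def primePiAP (x q a : ℕ) : ℕ :=
  ((Icc 1 x).filter (fun p : ℕ => p.Prime ∧ p ≡ a [MOD q])).card

/-- **Elliott-Halberstam for almost all residues `c + i ^ 2`.** Let `θ < 1` and `A > 0`. There is a constant `C` such
that for every integer `x > 2` and every integer `c` with `|c| ≤ x` the sum of
`|π(x; q, a) - π(x)/φ(q)|` over all positive integers `a ≤ x` for which `a - c` is a perfect square and over all
moduli `q ≤ x ^ θ` coprime to `a` is at most `C x ^ (3/2) / (log x) ^ A`. -/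
theorem result (θ : ℝ) (hθ : θ < 1) (A : ℝ) (hA : 0 < A) : ∃ C : ℝ, ∀ x : ℕ, 2 < x → ∀ c : ℤ,
    |c| ≤ x →
    ∑ a ∈ (Icc 1 x).filter (fun a : ℕ => IsSquare ((a : ℤ) - c)),
      ∑ q ∈ (Icc 1 ⌊(x : ℝ) ^ θ⌋₊).filter (fun q => a.Coprime q),
        |(primePiAP x q a : ℝ) - (primePi x : ℝ) / (Nat.totient q : ℝ)| ≤
      C * ((x : ℝ) ^ (3 / 2 : ℝ) / Real.log x ^ A) :=
  Pool.Agent.Y856.Sq.main θ hθ A hA

end Pool.Agent.Results.MP_a78e8f_nt.AlmostAllSquares
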