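import Mathlib
import Pool.Agent.Y826.LM.Main

/-!
# Beyond the level one half for all moduli which factor well

Let `H` be a finite set of linear forms `b n + c` with coprime coefficients `b, c ≠ 0` and `δ > 0`. The primes are
equidistributed on average over all the squarefree moduli `q ≤ x ^ (53/100)` which are `≤ x ^ (1/2 - δ)` or factor
well: for each `ν` in `[1/3, 1/2]` there is a factorisation `q = e 0 * e 1 * e 2 * e 3 * e 4` whose sizes
`y i = log (e i) / log x` satisfy five linear inequalities. The maximum over all the reduced residue classes `a`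
modulo `q` with `q ∣ ∏ (b a + c)` and the maximum over the cut-off are inside the sum.
-/

set_option autoImplicit false

open Finset Filter

namespace Pool.Agent.Results.MP_a78e8f_nt.FactorableModuli

/-- `π(x; q, a)` -/
noncomputable def primesAP (x q a : ℕ) : ℕ := Set.ncard {p : ℕ | p.Prime ∧ p ≤ x ∧ p ≡ a [MOD q]}

/-- the number of all the primes up to `x` -/
noncomputable def primesUpTo (x : ℕ) : ℕ := Set.ncard {p : ℕ | p.Prime ∧ p ≤ x}

/-- the inequalities between the sizes of the five factors -/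
def Ineq (δ ν : ℝ) (y : Fin 5 → ℝ) : Prop :=
  let η := max 0 (y 0 + y 1 + 2 * y 2 + 2 * y 3 + 2 * y 4 - (1 - ν))
  y 0 + y 1 ≤ ν - δ ∧ y 0 + y 1 + 2 * y 2 + 2 * y 3 ≤ 1 - ν - δ ∧ y 0 + 2 * y 2 + 4 * y 4 + 4 * η ≤ ν - δ ∧
    y 1 + 2 * y 3 + 8 * η ≤ 2 * ν - δ ∧ 8 * η + δ ≤ y 1 + 2 * y 3

/-- a modulus which factors well: for each `ν ∈ [1/3, 1/2]` there is a factorisation in five factors whose sizes
satisfy the inequalities `Ineq δ ν` -/
def FactorsWell (δ x : ℝ) (q : ℕ) : Prop :=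
  ∀ ν : ℝ, 1 / 3 ≤ ν → ν ≤ 1 / 2 → ∃ e : Fin 5 → ℕ, ∏ i, e i = q ∧
    Ineq δ ν (fun i => Real.log (e i) / Real.log x)

theorem factorsWell_iff (δ x : ℝ) (q : ℕ) : FactorsWell δ x q ↔ Pool.Agent.Y826.LM.GoodD δ x q := by
  constructor
  · intro h ν h1 h2
    obtain ⟨e, he, hi⟩ := h ν h1 h2
    refine ⟨e, he, fun y hy => ?_⟩
    obtain rfl : y = fun i => Real.log (e i) / Real.log x := funext hy
    intro η hη
    subst hη
    exact hi
  · intro h ν h1 h2
    obtain ⟨e, he, hi⟩ := h ν h1 h2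
    exact ⟨e, he, hi _ (fun _ => rfl) _ rfl⟩

theorem primesAP_eq (x q a : ℕ) : primesAP x q a = Pool.Agent.Y826.LD.primesAP (x : ℝ) q a := by
  classical
  unfold primesAP Pool.Agent.Y826.LD.primesAP
  rw [Nat.floor_natCast]
  have hS : {p : ℕ | p.Prime ∧ p ≤ x ∧ p ≡ a [MOD q]} =
      (((Icc 1 x).filter (fun p => p.Prime ∧ p ≡ a [MOD q]) : Finset ℕ) : Set ℕ) := by
    ext p
    simp only [Set.mem_ofPred_eq, Finset.coe_filter, Finset.mem_Icc]
    constructor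
    · rintro ⟨h1, h2, h3⟩
      exact ⟨⟨h1.one_lt.le, h2⟩, h1, h3⟩
    · rintro ⟨⟨_, h2⟩, h1, h3⟩
      exact ⟨h1, h2, h3⟩
  rw [hS, Set.ncard_coe_finset]

theorem primesUpTo_eq (x : ℕ) : primesUpTo x = primesAP x 1 0 := by
  unfold primesUpTo primesAP
  congr 1
  ext p
  simp only [Set.mem_ofPred_eq]
  exact ⟨fun h => ⟨h.1, h.2, Nat.modEq_one⟩, fun h => ⟨h.1, h.2.1⟩⟩

/-- in terms of the error term with the logarithmic integral -/
theorem diff_eq (y q a : ℕ) : (primesAP y q a : ℝ) - (primesUpTo y : ℝ) / (Nat.totient q : ℝ) =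
    Pool.Agent.Y826.LD.E (y : ℝ) q a - Pool.Agent.Y826.LD.E (y : ℝ) 1 0 * (1 / (Nat.totient q : ℝ)) := by
  rw [primesUpTo_eq, primesAP_eq, primesAP_eq]
  unfold Pool.Agent.Y826.LD.E
  rw [Nat.totient_one, Nat.cast_one, div_one]
  ring

theorem small {y q a : ℕ} (hy : y < 2) : (primesAP y q a : ℝ) - (primesUpTo y : ℝ) / (Nat.totient q : ℝ) = 0 := by
  have h1 : ∀ q a, primesAP y q a = 0 := by
    intro q a
    unfold primesAP
    rw [Set.ncard_eq_zero ((Set.finite_Iic y).subset fun p hp => hp.2.1)]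
    ext p
    simp only [Set.mem_ofPred_eq, Set.mem_empty_iff_false, iff_false, not_and]
    intro hp hpy
    exact absurd hp.two_le (by omega)
  rw [primesUpTo_eq, h1, h1]
  simp

open Classical in
/-- Let `H` be a finite set of pairs `(b, c)` of coprime integers different from `0`, and `δ > 0`. For all `κ ≥ 0`
and `A` there is `C > 0` such that for all integers `x > 2` and all choices of cut-offs `y q ≤ x` and residues
`a q`: the sum of `κ ^ ν(q) * |π(y; q, a) - π(y) / φ(q)|` over the squarefree `q ≤ x ^ (53/100)` which are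
`≤ x ^ (1/2 - δ)` or factor well and for which `(a q, q) = 1` and `q ∣ ∏ (b * a q + c)`, is at most
`C x (log x) ^ (-A)`. -/
theorem result (H : Finset (ℤ × ℤ)) (hH : ∀ h ∈ H, h.1 ≠ 0 ∧ h.2 ≠ 0 ∧ IsCoprime h.1 h.2) (δ : ℝ) (hδ : 0 < δ)
    (κ : ℝ) (hκ : 0 ≤ κ) (A : ℝ) :
    ∃ C : ℝ, 0 < C ∧ ∀ x : ℕ, 2 < x → ∀ y a : ℕ → ℕ, (∀ q, y q ≤ x) →
      ∑ q ∈ (Icc 1 ⌊(x : ℝ) ^ (53 / 100 : ℝ)⌋₊).filter (fun q : ℕ => Squarefree q ∧
          ((q : ℝ) ≤ (x : ℝ) ^ (1 / 2 - δ) ∨ FactorsWell δ x q) ∧ (a q).Coprime q ∧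
          (q : ℤ) ∣ ∏ h ∈ H, (h.1 * (a q : ℤ) + h.2)),
        κ ^ q.primeFactors.card * |(primesAP (y q) q (a q) : ℝ) - (primesUpTo (y q) : ℝ) / (Nat.totient q : ℝ)| ≤
      C * x * (Real.log x) ^ (-A) := by
  obtain ⟨k, hk⟩ : ∃ k : ℕ, k = ⌈κ⌉₊ := ⟨_, rfl⟩
  obtain ⟨U, hU⟩ : ∃ U : ℕ, U = ⌈A⌉₊ := ⟨_, rfl⟩
  set R : ℕ := 2 ^ (1 + k + 1) with hR
  obtain ⟨C1, hC1⟩ := Pool.Agent.Y826.LM.s_main H hH δ hδ k U
  obtain ⟨C2, hC2⟩ := Pool.Agent.Y826.LM.s_main H hH (1 / 2) (by norm_num) 1 (U + R)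
  refine ⟨|C1| + |C2| * 2 ^ R + 1, by positivity, ?_⟩
  intro x hx y a hy
  have hx3 : (3 : ℝ) ≤ x := by exact_mod_cast hx
  have hx0 : (0 : ℝ) < x := by linarith
  have hlog : 1 ≤ Real.log x := by
    have h1 : Real.exp 1 ≤ x := (Real.exp_one_lt_d9.le.trans (by norm_num)).trans hx3
    have := Real.log_le_log (Real.exp_pos 1) h1
    rwa [Real.log_exp] at this
  have hlog0 : 0 < Real.log x := by linarith
  set L := Real.log x with hL
  -- the number of all the primes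
  have hall : ∀ z : ℕ, 2 ≤ z → z ≤ x → |Pool.Agent.Y826.LD.E (z : ℝ) 1 0| ≤ |C2| * (x / L ^ (U + R)) := by
    intro z hz1 hz2
    have h1 := hC2 x hx3 (fun _ => (z : ℝ)) (fun _ => 0)
    refine le_trans ?_ (h1.trans (mul_le_mul_of_nonneg_right (le_abs_self C2) (by positivity)))
    have h2 : (1 : ℕ) ∈ (Icc 1 ⌊(x : ℝ) ^ (53 / 100 : ℝ)⌋₊).filter (fun d : ℕ => Squarefree d ∧
        ((d : ℝ) ≤ (x : ℝ) ^ ((1 : ℝ) / 2 - 1 / 2) ∨ Pool.Agent.Y826.LM.GoodD (1 / 2) x d) ∧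
        2 ≤ (z : ℝ) ∧ (z : ℝ) ≤ x ∧ Nat.Coprime 0 d ∧ (d : ℤ) ∣ ∏ h ∈ H, (h.1 * ((0 : ℕ) : ℤ) + h.2)) := by
      rw [Finset.mem_filter, Finset.mem_Icc]
      refine ⟨⟨le_rfl, Nat.le_floor ?_⟩, squarefree_one, Or.inl ?_, by exact_mod_cast hz1,
        by exact_mod_cast hz2, Nat.coprime_one_right 0, ?_⟩
      · rw [Nat.cast_one]
        exact Real.one_le_rpow (by linarith) (by norm_num)
      · rw [sub_self, Real.rpow_zero, Nat.cast_one]
      · rw [Nat.cast_one]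
        exact one_dvd _
    have h3 := Finset.single_le_sum (f := fun d : ℕ => ((1 : ℕ) : ℝ) ^ d.primeFactors.card *
      |Pool.Agent.Y826.LD.E ((fun _ => (z : ℝ)) d) d ((fun _ => 0) d)|)
      (fun d _ => mul_nonneg (pow_nonneg (Nat.cast_nonneg _) _) (abs_nonneg _)) h2
    refine le_trans (le_of_eq ?_) h3
    simp
  set T := (Icc 1 ⌊(x : ℝ) ^ (53 / 100 : ℝ)⌋₊).filter (fun q : ℕ => Squarefree q ∧
          ((q : ℝ) ≤ (x : ℝ) ^ (1 / 2 - δ) ∨ FactorsWell δ x q) ∧ (a q).Coprime q ∧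
          (q : ℤ) ∣ ∏ h ∈ H, (h.1 * (a q : ℤ) + h.2)) with hT
  have hTsq : ∀ q ∈ T, Squarefree q := fun q hq => (Finset.mem_filter.1 hq).2.1
  -- pointwise
  have hpt : ∀ q ∈ T, κ ^ q.primeFactors.card *
        |(primesAP (y q) q (a q) : ℝ) - (primesUpTo (y q) : ℝ) / (Nat.totient q : ℝ)| ≤
      (if 2 ≤ y q then (k : ℝ) ^ q.primeFactors.card * |Pool.Agent.Y826.LD.E (y q : ℝ) q (a q)| else 0) +
        (|C2| * (x / L ^ (U + R))) * (Pool.Agent.Y826.Z.tau q ^ k * (1 / (Nat.totient q : ℝ))) := by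
    intro q hq
    have hk1 : κ ^ q.primeFactors.card ≤ (k : ℝ) ^ q.primeFactors.card :=
      pow_le_pow_left₀ hκ (by rw [hk]; exact Nat.le_ceil κ) _
    have htau : (k : ℝ) ^ q.primeFactors.card ≤ Pool.Agent.Y826.Z.tau q ^ k :=
      Pool.Agent.Y246.LD.tau_ge (hTsq q hq).ne_zero k
    have hB : 0 ≤ |C2| * (x / L ^ (U + R)) := by positivity
    have hφ : 0 ≤ 1 / (Nat.totient q : ℝ) := by positivity
    have hk0 : 0 ≤ (k : ℝ) ^ q.primeFactors.card := by positivity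
    by_cases h2 : 2 ≤ y q
    · rw [if_pos h2, diff_eq]
      calc κ ^ q.primeFactors.card * |Pool.Agent.Y826.LD.E (y q : ℝ) q (a q) -
            Pool.Agent.Y826.LD.E (y q : ℝ) 1 0 * (1 / (Nat.totient q : ℝ))|
          ≤ (k : ℝ) ^ q.primeFactors.card * (|Pool.Agent.Y826.LD.E (y q : ℝ) q (a q)| +
            (|C2| * (x / L ^ (U + R))) * (1 / (Nat.totient q : ℝ))) := by
            apply mul_le_mul hk1 _ (abs_nonneg _) hk0
            refine (abs_sub _ _).trans (add_le_add le_rfl ?_)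
            rw [abs_mul, abs_of_nonneg hφ]
            exact mul_le_mul_of_nonneg_right (hall (y q) h2 (hy q)) hφ
        _ = (k : ℝ) ^ q.primeFactors.card * |Pool.Agent.Y826.LD.E (y q : ℝ) q (a q)| +
            (k : ℝ) ^ q.primeFactors.card * ((|C2| * (x / L ^ (U + R))) * (1 / (Nat.totient q : ℝ))) := by ring
        _ ≤ _ := by
            apply add_le_add le_rfl
            calc (k : ℝ) ^ q.primeFactors.card * ((|C2| * (x / L ^ (U + R))) * (1 / (Nat.totient q : ℝ)))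
                ≤ Pool.Agent.Y826.Z.tau q ^ k * ((|C2| * (x / L ^ (U + R))) * (1 / (Nat.totient q : ℝ))) :=
                  mul_le_mul_of_nonneg_right htau (mul_nonneg hB hφ)
              _ = _ := by ring
    · rw [if_neg h2, small (by omega), abs_zero, mul_zero, zero_add]
      have := pow_nonneg (Pool.Agent.Y826.ZG.Y950.tau_nonneg q) k
      positivity
  refine (Finset.sum_le_sum hpt).trans ?_
  rw [Finset.sum_add_distrib, ← Finset.mul_sum]
  -- first part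
  have p1 : ∑ q ∈ T, (if 2 ≤ y q then (k : ℝ) ^ q.primeFactors.card *
      |Pool.Agent.Y826.LD.E (y q : ℝ) q (a q)| else 0) ≤ |C1| * (x / L ^ U) := by
    have h1 := hC1 x hx3 (fun q => (y q : ℝ)) a
    refine le_trans ?_ (h1.trans (mul_le_mul_of_nonneg_right (le_abs_self C1) (by positivity)))
    rw [← Finset.sum_filter]
    apply Finset.sum_le_sum_of_subset_of_nonneg
    · intro q hq
      rw [Finset.mem_filter, hT, Finset.mem_filter] at hq
      obtain ⟨⟨h2, h3, h4, h5, h6⟩, h7⟩ := hq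
      rw [Finset.mem_filter]
      refine ⟨h2, h3, ?_, by exact_mod_cast h7, by exact_mod_cast hy q, h5, h6⟩
      rwa [← factorsWell_iff]
    · intro q _ _
      exact mul_nonneg (pow_nonneg (Nat.cast_nonneg _) _) (abs_nonneg _)
  -- second part
  have p2 : ∑ q ∈ T, Pool.Agent.Y826.Z.tau q ^ k * (1 / (Nat.totient q : ℝ)) ≤ (1 + L) ^ R := by
    have hinj : Set.InjOn (fun q : ℕ => (fun _ : Fin 1 => q)) (T : Set ℕ) := fun u _ v _ h => congrFun h 0
    have hPr : ∀ q : ℕ, Pool.Agent.Y826.Z.Pr (fun _ : Fin 1 => q) = q := by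
      intro q
      unfold Pool.Agent.Y826.Z.Pr
      simp
    have h1 := Pool.Agent.Y826.LD.Sh.T1 1 k one_pos (x : ℝ) hx3 (T.image (fun q : ℕ => (fun _ : Fin 1 => q))) (by
      intro q' hq'
      rw [Finset.mem_image] at hq'
      obtain ⟨q, hq, rfl⟩ := hq'
      rw [hPr, Pool.Agent.Y826.ZG.rd_eq squarefree_one, one_mul]
      refine ⟨hTsq q hq, ?_⟩
      rw [hT, Finset.mem_filter, Finset.mem_Icc] at hq
      have h3 : (q : ℝ) ≤ (x : ℝ) ^ (53 / 100 : ℝ) := (Nat.le_floor_iff (by positivity)).1 hq.1.2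
      refine h3.trans ?_
      calc (x : ℝ) ^ (53 / 100 : ℝ) ≤ (x : ℝ) ^ (1 : ℝ) :=
            Real.rpow_le_rpow_of_exponent_le (by linarith) (by norm_num)
        _ = x := Real.rpow_one _)
    rw [Finset.sum_image hinj] at h1
    simpa only [hPr, one_mul] using h1
  have p3 : (1 + L) ^ R ≤ 2 ^ R * L ^ R := by
    rw [← mul_pow]
    exact pow_le_pow_left₀ (by linarith) (by linarith) R
  have p4 : (|C2| * (x / L ^ (U + R))) * ∑ q ∈ T, Pool.Agent.Y826.Z.tau q ^ k * (1 / (Nat.totient q : ℝ)) ≤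
      |C2| * 2 ^ R * (x / L ^ U) := by
    calc (|C2| * (x / L ^ (U + R))) * ∑ q ∈ T, Pool.Agent.Y826.Z.tau q ^ k * (1 / (Nat.totient q : ℝ))
        ≤ (|C2| * (x / L ^ (U + R))) * (2 ^ R * L ^ R) :=
          mul_le_mul_of_nonneg_left (p2.trans p3) (by positivity)
      _ = |C2| * 2 ^ R * (x / L ^ U) := by
          rw [pow_add]
          field_simp
  have p5 : x / L ^ U ≤ x * L ^ (-A) := by
    rw [Real.rpow_neg hlog0.le, ← div_eq_mul_inv]
    apply div_le_div_of_nonneg_left hx0.le (Real.rpow_pos_of_pos hlog0 A)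
    rw [← Real.rpow_natCast]
    exact Real.rpow_le_rpow_of_exponent_le hlog (by rw [hU]; exact Nat.le_ceil A)
  have p6 : 0 ≤ x / L ^ U := by positivity
  calc _ ≤ |C1| * (x / L ^ U) + |C2| * 2 ^ R * (x / L ^ U) := add_le_add p1 p4
    _ ≤ (|C1| + |C2| * 2 ^ R + 1) * (x / L ^ U) := by linarith
    _ ≤ (|C1| + |C2| * 2 ^ R + 1) * (x * L ^ (-A)) := mul_le_mul_of_nonneg_left p5 (by positivity)
    _ = (|C1| + |C2| * 2 ^ R + 1) * x * L ^ (-A) := by ring

end Pool.Agent.Results.MP_a78e8f_nt.FactorableModuli
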