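import Pool.Agent.Y856.Metric.Prob

/-!
# The Hausdorff dimension of the exceptions to the bound of Elliott and Halberstam

For every level `θ < 1` the bound of Elliott and Halberstam, with the maxima over the lengths `y ≤ x` and over
the residues `a ∈ F(q, ⌊α q⌋)` inside the sum, can fail only for a set of real numbers `α` of small Hausdorff
dimension.
-/

set_option autoImplicit false

namespace Pool.Agent.Results.MP_a78e8f_nt.MetricDimension

open Finset

/-- `π(y)`: the number of primes `p ≤ y`. -/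
noncomputable def primePi (y : ℕ) : ℕ := ((Icc 1 y).filter (fun p : ℕ => p.Prime)).card

/-- `π(y; q, a)`: the number of primes `p ≤ y` with `p ≡ a (mod q)`, where `a` is an integer. -/
noncomputable def primePiAP (y q : ℕ) (a : ℤ) : ℕ :=
  ((Icc 1 y).filter (fun p : ℕ => p.Prime ∧ (p : ℤ) ≡ a [ZMOD q])).card

/-- The bound of Elliott and Halberstam at level `θ` with the residues `a` modulo `q` restricted to the finite set
`T(q)`: for every `A > 0` there is `C` such that for all integers `x > 2` and all choices of lengths `y(q) ≤ x` and of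
residues `a(q)` the sum of `|π(y(q); q, a(q)) - π(y(q))/φ(q)|` over all `q ≤ x ^ θ` with `a(q) ∈ T(q)` and
`(a(q), q) = 1` is at most `C x / (log x) ^ A`. (Thus the maxima over `y ≤ x` and over `a ∈ T(q)` stand inside the
sum over `q`.) -/
def EHOver (θ : ℝ) (T : ℕ → Finset ℤ) : Prop :=
  ∀ A : ℝ, 0 < A → ∃ C : ℝ, ∀ x : ℕ, 2 < x → ∀ y : ℕ → ℕ, (∀ q, y q ≤ x) → ∀ a : ℕ → ℤ,
    ∑ q ∈ (Icc 1 ⌊(x : ℝ) ^ θ⌋₊).filter (fun q => a q ∈ T q ∧ Int.gcd (a q) q = 1),
      |(primePiAP (y q) q (a q) : ℝ) - (primePi (y q) : ℝ) / (Nat.totient q : ℝ)| ≤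
      C * (x / Real.log x ^ A)

/-- **The dimension of the exceptional set.** Let `0 < θ < 1` and `β ≥ 0`. For every modulus `q` and every integer `t`
let `F(q, t)` be an arbitrary finite set of integers, such that among every `q` consecutive integers
`m q ≤ t < (m + 1) q` at most `κ q ^ β` have the property that `F(q, t)` represents a given class `l` modulo `q`.
(Examples: `F(q, t) = {c(q) + t}` with `β = 0`, or all the integers at distance at most `q ^ β` from `c(q) + t`.)

Then the real numbers `α` for which the bound of Elliott and Halberstam at level `θ` over the residues in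
`F(q, ⌊α q⌋)` fails form a set of Hausdorff dimension at most `max(0, 2 + β - 1/θ)`. -/
theorem result (θ κ β : ℝ) (hθ0 : 0 < θ) (hθ1 : θ < 1) (hβ : 0 ≤ β) (F : ℕ → ℤ → Finset ℤ)
    (hF : ∀ q : ℕ, 1 ≤ q → ∀ m l : ℤ, (((Ico (m * q) ((m + 1) * q)).filter
      (fun t => ∃ a ∈ F q t, a ≡ l [ZMOD q])).card : ℝ) ≤ κ * (q : ℝ) ^ β) :
    dimH {α : ℝ | ¬ EHOver θ (fun q => F q ⌊α * q⌋)} ≤ ENNReal.ofReal (2 + β - 1 / θ) :=
  Pool.Agent.Y856.dim_main θ κ β hθ0 hθ1 hβ F hF

end Pool.Agent.Results.MP_a78e8f_nt.MetricDimension
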