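import Pool.Agent.Y882.EHF

/-!
# The Elliott-Halberstam bound for separated residue systems, at every level below `x / (log x)^B`

The maximum `E(x; q)` of the problem is the maximum of the error term over all residue systems `c`
(a class `c(q)` prime to `q` for every modulus `q`). We show: in every family of residue systems any
two of which coincide modulo few `q ≤ Q` only, all but at most `(Q² / x) (log x)^B` members satisfy
the bound `x / (log x)^U` of the problem, for all `Q ≤ x / (log x)^B`. For `Q < √x / (log x)^(B/2)`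
there are no exceptions at all, which is the theorem of Bombieri and Vinogradov; for `Q = x^θ` the
number of the exceptions is at most `x^(2θ-1) (log x)^B`. This applies to the systems
`q ↦ a u(q) + v(q)`, `a ≤ x^D`, with arbitrary fixed `u`, `v`, `u(q)` prime to `q`: e.g. to the
translates and to the multiples of a system which attains the maxima `E(x; q)`, to the constant systems
`q ↦ a`, and to the fractions `a / b` with a fixed denominator `b`.

Proof. The characters of a conductor at most `√x / (log x)^V` contribute little uniformly in all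
classes (large sieve and Siegel-Walfisz theorem); for the others the mean square over all classes and
moduli is small (large sieve), and the number of coincidences of the family is small.
-/

set_option autoImplicit false

namespace Pool.Agent.Results.MP_a78e8f_nt.SeparatedResidueSystems

open Finset

/-- `π(x)` -/
def primePi (x : ℕ) : ℕ := ((Icc 1 x).filter (fun p : ℕ => p.Prime)).card

/-- `π(x; q, a)` -/
def primePiAP (x q a : ℕ) : ℕ := ((Icc 1 x).filter (fun p : ℕ => p.Prime ∧ p ≡ a [MOD q])).card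

/-- The sum of `|π(x; q, c(q)) - π(x) / φ(q)|` over the moduli `1 ≤ q ≤ Q` for which `c(q)` is prime
to `q`. -/
noncomputable def total (x Q : ℕ) (c : ℕ → ℕ) : ℝ :=
  ∑ q ∈ (Icc 1 Q).filter (fun q => (c q).Coprime q),
    |(primePiAP x q (c q) : ℝ) - (primePi x : ℝ) / (Nat.totient q : ℝ)|

/-- The number of the moduli `1 ≤ q ≤ Q` with `c(q) ≡ c'(q) (mod q)`. -/
def coincidences (c c' : ℕ → ℕ) (Q : ℕ) : ℕ := ((Icc 1 Q).filter (fun q => c q ≡ c' q [MOD q])).card

theorem result (U : ℕ) :
    (∃ B x₀ : ℕ, ∀ x : ℕ, x₀ ≤ x → ∀ Q : ℕ, (Q : ℝ) * Real.log x ^ B ≤ x →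
      ∀ (ι : Type) (I : Finset ι) (c : ι → ℕ → ℕ),
        (∀ i ∈ I, ∀ j ∈ I, i ≠ j → (coincidences (c i) (c j) Q : ℝ) * (Q * Real.log x ^ B) ≤ x) →
        (∀ i ∈ I, x / Real.log x ^ U < total x Q (c i)) →
        (I.card : ℝ) ≤ (Q : ℝ) ^ 2 / x * Real.log x ^ B) ∧
    (∀ ε D : ℝ, 0 < ε → 0 ≤ D → ∃ B x₀ : ℕ, ∀ x : ℕ, x₀ ≤ x → ∀ Q : ℕ, (Q : ℝ) ≤ (x : ℝ) ^ (1 - ε) →
      ∀ u v : ℕ → ℕ, (∀ q, 1 ≤ q → (u q).Coprime q) →
      ∀ A : Finset ℕ, (∀ a ∈ A, (a : ℝ) ≤ (x : ℝ) ^ D ∧
        x / Real.log x ^ U < total x Q (fun q => a * u q + v q)) →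
        (A.card : ℝ) ≤ (Q : ℝ) ^ 2 / x * Real.log x ^ B) :=
  ⟨Pool.Agent.Y882.EHF.few U, fun ε D hε hD => Pool.Agent.Y882.EHF.few_affine U ε D hε hD⟩

end Pool.Agent.Results.MP_a78e8f_nt.SeparatedResidueSystems
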